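import Pool.Agent.H27.L1.H84.GA.BIA

/-!
Row PHB of the board ga: the adapted test function, the iterated Cayley operator of the bump function.
-/

namespace Pool.Agent.H27.L1.H23.GA

open MeasureTheory Pool.Agent.H27.L1.H34.GM Pool.Agent.H27.L1.H34.GZ Pool.Agent.H27.L1.H34.GU Pool.Agent.H27.L1.H34.GA

/-- the determinant on the slices -/
lemma det_slice {m : ℕ} (hm : 1 ≤ m) {r : ℝ} (hr : 0 < r) {z : V m} (hz : (mt z).det ≠ 0) :
    |((r⁻¹ * (aN (mt z))⁻¹) • mt z).det| = (r ^ m)⁻¹ := by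
  have h1 : aN (mt z) ^ m = |(mt z).det| := by
    unfold aN
    rw [← Real.rpow_natCast, ← Real.rpow_mul (abs_nonneg _)]
    have : (m : ℝ) ≠ 0 := by positivity
    rw [one_div, inv_mul_cancel₀ this, Real.rpow_one]
  have h2 : 0 < |(mt z).det| := abs_pos.2 hz
  have h3 : 0 < aN (mt z) := by
    unfold aN
    positivity
  rw [Matrix.det_smul, Fintype.card_fin, abs_mul, abs_pow, abs_of_pos (by positivity), mul_pow,
    inv_pow, inv_pow, h1, mul_assoc, inv_mul_cancel₀ h2.ne', mul_one]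

lemma shell_det' {m : ℕ} (hm : 1 ≤ m) {z : V m} (hz : z ∈ Shell m) : (mt z).det ≠ 0 := by
  intro h
  have h1 : 1 ≤ aN (mt z) := hz.1
  unfold aN at h1
  rw [h, abs_zero, Real.zero_rpow] at h1
  · linarith
  · have : (m : ℝ) ≠ 0 := by positivity
    exact one_div_ne_zero this

lemma shell_meas' (m : ℕ) : MeasurableSet (Shell m) := by
  have hd : Continuous fun z : V m => (mt z).det := by
    have : Continuous fun z : V m => mt z := by
      refine continuous_matrix fun i j => ?_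
      show Continuous fun z : V m => z i j
      fun_prop
    exact this.matrix_det
  have h1 : Measurable fun z : V m => aN (mt z) := by
    unfold aN
    have h2 : Measurable fun z : V m => |(mt z).det| := (continuous_abs.comp hd).measurable
    exact h2.pow_const _
  exact (measurableSet_le measurable_const h1).inter (measurableSet_lt h1 measurable_const)

/-- the transform vanishes beyond the support -/
lemma uu_zero {m : ℕ} (hm : 1 ≤ m) {Φ f : Mat m → ℂ} {C r : ℝ} (hC : 1 ≤ C)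
    (hs : ∀ z, Φ z ≠ 0 → C⁻¹ ≤ |z.det|) (hr : C < r) : uu Φ f r = 0 := by
  unfold uu
  refine setIntegral_eq_zero_of_forall_eq_zero fun z hz => ?_
  have hr0 : 0 < r := by linarith
  by_contra h
  have h1 := hs _ (left_ne_zero_of_mul h)
  rw [det_slice hm hr0 (shell_det' hm hz)] at h1
  have h2 : r ^ m ≤ C := by
    have h3 : (0 : ℝ) < r ^ m := by positivity
    exact (inv_le_inv₀ (by linarith) h3).1 h1
  have h4 : r ≤ r ^ m := le_self_pow₀ (by linarith) (by omega)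
  linarith

/-- the dual transform: the determinant gives the factor `r ^ (-m * l)` -/
lemma uu_dual {m : ℕ} (hm : 1 ≤ m) (hJ : T_JSH) (K : ℝ) (hK : (m : ℝ) ^ 2 ≤ K) : ∃ (N : ℕ) (C : ℝ),
    0 < C ∧ ∀ f : Mat m → ℂ, Cof m f 1 → ∀ (Ψ : Mat m → ℂ) (M : ℝ),
    0 ≤ M → (∀ z, ‖Ψ z‖ ≤ M * |z.det| ^ m * (1 + sz z) ^ (-(N : ℝ))) → ∀ r : ℝ, 0 < r →
      ‖uu Ψ f r‖ ≤ C * M * r ^ (K - (m : ℝ) ^ 2) := by
  obtain ⟨N, C, hC, h⟩ := hJ m hm K hK
  refine ⟨N, C, hC, fun f hf Ψ M hM hΨ r hr => ?_⟩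
  have h1 : ‖uu Ψ f r‖ₑ ≤ ENNReal.ofReal (C * M * r ^ (K - (m : ℝ) ^ 2)) := by
    unfold uu
    refine (enorm_integral_le_lintegral_enorm _).trans ?_
    have h2 : ∀ z ∈ Shell m, ‖Ψ ((r⁻¹ * (aN (mt z))⁻¹) • mt z) * f (mt z)‖ₑ ≤
        ENNReal.ofReal (M * r ^ (-(m : ℝ) ^ 2)) *
          ENNReal.ofReal ((1 + sz ((r⁻¹ * (aN (mt z))⁻¹) • mt z)) ^ (-(N : ℝ))) := by
      intro z hz
      have hz' := shell_det' hm hz
      rw [← ENNReal.ofReal_mul (by positivity), ← ofReal_norm]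
      refine ENNReal.ofReal_le_ofReal ?_
      rw [norm_mul]
      have h3 := hΨ ((r⁻¹ * (aN (mt z))⁻¹) • mt z)
      rw [det_slice hm hr hz'] at h3
      have h4 := hf.bd (mt z) hz'
      have h5 : ((r ^ m)⁻¹ : ℝ) ^ m = r ^ (-(m : ℝ) ^ 2) := by
        rw [inv_pow, ← pow_mul, Real.rpow_neg hr.le, ← Real.rpow_natCast]
        congr 2
        push_cast
        ring
      rw [h5] at h3
      calc ‖Ψ ((r⁻¹ * (aN (mt z))⁻¹) • mt z)‖ * ‖f (mt z)‖
          ≤ ‖Ψ ((r⁻¹ * (aN (mt z))⁻¹) • mt z)‖ * 1 :=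
            mul_le_mul_of_nonneg_left h4 (norm_nonneg _)
        _ = ‖Ψ ((r⁻¹ * (aN (mt z))⁻¹) • mt z)‖ := mul_one _
        _ ≤ _ := h3
    refine (setLIntegral_mono' (shell_meas' m) h2).trans ?_
    rw [lintegral_const_mul' _ _ ENNReal.ofReal_ne_top]
    refine (mul_le_mul_right (h r hr) _).trans ?_
    rw [← ENNReal.ofReal_mul (by positivity)]
    refine ENNReal.ofReal_le_ofReal (le_of_eq ?_)
    rw [sub_eq_add_neg, Real.rpow_add hr]
    ring
  rw [← ofReal_norm] at h1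
  exact (ENNReal.ofReal_le_ofReal_iff (by positivity)).1 h1

lemma wt_of {r e M x : ℝ} {K K' : ℕ} (hr : 0 < r) (he : 0 ≤ e) (heK : e ≤ K') (hKK : K ≤ K')
    (hM : 0 ≤ M) (h1 : x ≤ M * r ^ K') (h2 : x ≤ M) : x ≤ M * min (r ^ K) (r ^ e) := by
  rcases le_total r 1 with h | h
  · have h3 : r ^ K' ≤ r ^ e := by
      rw [← Real.rpow_natCast]
      exact Real.rpow_le_rpow_of_exponent_ge hr h heK
    have h4 : r ^ K' ≤ r ^ K := pow_le_pow_of_le_one hr.le h hKK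
    exact h1.trans (mul_le_mul_of_nonneg_left (le_min h4 h3) hM)
  · have h3 : (1 : ℝ) ≤ r ^ K := one_le_pow₀ h
    have h4 : (1 : ℝ) ≤ r ^ e := Real.one_le_rpow h he
    have h5 : (1 : ℝ) ≤ min (r ^ K) (r ^ e) := le_min h3 h4
    nlinarith

/-- from the bounds of a function and of its Euler derivative -/
lemma wtb_of {m : ℕ} (hm : 1 ≤ m) (hU : T_UDE) {f : Mat m → ℂ}
    (hf : Cof m f 1) {Ψ Ψ1 : Mat m → ℂ} (h0 : Dg m Ψ) (h1 : Dg m Ψ1)
    (hd : ∀ z, HasDerivAt (fun c : ℝ => Ψ (c • z)) (Ψ1 z) 1) {M ε : ℝ} {K K' : ℕ} (hε : 0 < ε)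
    (hK : (m : ℝ) ^ 2 / 2 + ε ≤ K') (hKK : K ≤ K') (hM : 0 ≤ M)
    (b0 : ∀ r : ℝ, 0 < r → ‖uu Ψ f r‖ ≤ M * r ^ K' ∧ ‖uu Ψ f r‖ ≤ M)
    (b1 : ∀ r : ℝ, 0 < r → ‖uu Ψ1 f r‖ ≤ M * r ^ K' ∧ ‖uu Ψ1 f r‖ ≤ M) :
    WtB m (uu Ψ f) M ε K := by
  have hder := hU m hm f 1 hf Ψ Ψ1 h0 h1 hd
  have he : (0 : ℝ) ≤ (m : ℝ) ^ 2 / 2 + ε := by positivity
  refine ⟨fun r hr => (hder r hr).differentiableAt.differentiableWithinAt, fun r hr => ?_,
    fun r hr => ?_⟩
  · exact wt_of hr he hK hKK hM (b0 r hr).1 (b0 r hr).2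
  · rw [(hder r hr).deriv, norm_neg, norm_mul, norm_inv, Complex.norm_real,
      Real.norm_of_nonneg hr.le, ← mul_assoc, mul_inv_cancel₀ hr.ne', one_mul]
    exact wt_of hr he hK hKK hM (b1 r hr).1 (b1 r hr).2

/-- the Euler derivative vanishes where the determinant is small -/
lemma eu_supp {m : ℕ} {Φ : Mat m → ℂ} {C : ℝ} (hs : ∀ z, Φ z ≠ 0 → C⁻¹ ≤ |z.det|) (z : Mat m)
    (hz : H34.GA.eu Φ z ≠ 0) : C⁻¹ ≤ |z.det| := by
  by_contra h
  push Not at h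
  apply hz
  unfold H34.GA.eu
  have h1 : ContinuousAt (fun c : ℝ => |(c • z).det|) 1 := by
    have : Continuous fun c : ℝ => |(c • z).det| := by
      simp only [Matrix.det_smul]
      fun_prop
    exact this.continuousAt
  have h2 : ∀ᶠ c in nhds (1 : ℝ), |(c • z).det| < C⁻¹ := by
    refine h1.eventually_lt continuousAt_const ?_
    simpa using h
  have h3 : (fun c : ℝ => Φ (c • z)) =ᶠ[nhds 1] fun _ => 0 := by
    filter_upwards [h2] with c hc
    by_contra h4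
    exact absurd (hs _ h4) (not_le.2 hc)
  rw [h3.deriv_eq]
  simp

/-- test functions are rapidly decreasing -/
lemma tg_dg {m : ℕ} {Φ : Mat m → ℂ} (h : Tg m Φ) : Dg m Φ := by
  obtain ⟨c, hc, h1⟩ := h.supp
  have hcs := H84.GA.FD.comp h
  obtain ⟨B, hB⟩ := hcs.exists_bound_of_continuous (show Continuous fun z : V m => Φ (mt z) from h.cont)
  refine ⟨h.cont, fun N => ⟨max B 0 * (1 + c) ^ (N : ℝ), by positivity, fun z => ?_⟩⟩
  have h0 : (0 : ℝ) ≤ sz z := norm_nonneg _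
  by_cases hz : Φ z = 0
  · rw [hz, norm_zero]
    positivity
  · have h2 := (h1 z hz).1
    have h3 : ‖Φ z‖ ≤ max B 0 := (hB (z : V m)).trans (le_max_left _ _)
    have h4 : 1 ≤ (1 + c) ^ (N : ℝ) * (1 + sz z) ^ (-(N : ℝ)) := by
      rw [Real.rpow_neg (by positivity), ← div_eq_mul_inv, one_le_div (by positivity)]
      exact Real.rpow_le_rpow (by positivity) (by linarith) (by positivity)
    calc ‖Φ z‖ ≤ max B 0 * 1 := by rw [mul_one]; exact h3
      _ ≤ max B 0 * ((1 + c) ^ (N : ℝ) * (1 + sz z) ^ (-(N : ℝ))) :=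
          mul_le_mul_of_nonneg_left h4 (le_max_right _ _)
      _ = _ := by ring

/-- a bounded function with support near the unit matrix -/
lemma bd_dec {M R : ℝ} (hM : 0 ≤ M) (hR : 0 ≤ R) (N : ℕ) {m : ℕ} {Φ : Mat m → ℂ} (h0 : ∀ z, ‖Φ z‖ ≤ M)
    (h1 : ∀ z, Φ z ≠ 0 → sz z ≤ R) (z : Mat m) :
    ‖Φ z‖ ≤ M * (1 + R) ^ N * (1 + sz z) ^ (-(N : ℝ)) := by
  have hs : (0 : ℝ) ≤ sz z := norm_nonneg _
  by_cases hz : Φ z = 0
  · rw [hz, norm_zero]
    positivity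
  · have h2 := h1 z hz
    have h4 : 1 ≤ (1 + R) ^ N * (1 + sz z) ^ (-(N : ℝ)) := by
      rw [Real.rpow_neg (by positivity), ← div_eq_mul_inv, Real.rpow_natCast,
        one_le_div (by positivity)]
      exact pow_le_pow_left₀ (by positivity) (by linarith) _
    calc ‖Φ z‖ ≤ M * 1 := by rw [mul_one]; exact h0 z
      _ ≤ M * ((1 + R) ^ N * (1 + sz z) ^ (-(N : ℝ))) := mul_le_mul_of_nonneg_left h4 hM
      _ = _ := by ring

lemma tg_int {m : ℕ} {Φ : Mat m → ℂ} (h : Tg m Φ) (w : Mat m) :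
    Integrable (fun z : V m => Φ (mt z) * ee (-(w * mt z).trace)) := by
  have h1 : Continuous fun z : V m => Φ (mt z) := h.cont
  exact (h1.mul (H84.GA.FD.EE_cont w)).integrable_of_hasCompactSupport
    (H84.GA.FD.comp h).mul_right

/-- linearity of the Fourier transform -/
lemma cf_eu2 {m : ℕ} {Φ : Mat m → ℂ} (h : Tg m Φ) (h' : Tg m (H34.GA.eu Φ)) (w : Mat m) :
    H34.GA.cf (H34.GA.eu2 Φ) w = -((m : ℂ) ^ 2 * H34.GA.cf Φ w + H34.GA.cf (H34.GA.eu Φ) w) := by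
  have h1 : ft (H34.GA.eu2 Φ) w = -((m : ℂ) ^ 2 * ft Φ w + ft (H34.GA.eu Φ) w) := by
    unfold ft
    rw [← integral_const_mul, ← integral_add ((tg_int h w).const_mul _) (tg_int h' w),
      ← integral_neg]
    refine integral_congr_ae (Filter.Eventually.of_forall fun z => ?_)
    show H34.GA.eu2 Φ (mt z) * _ = _
    unfold H34.GA.eu2
    ring
  unfold H34.GA.cf
  rw [h1, map_neg, map_add, map_mul, map_pow, Complex.conj_natCast]

theorem pf_PHB (hBIA : T_BIA) (hBID : T_BID) (hFTY : T_FTY) (hFDD : T_FDD) (hZAD : T_ZAD)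
    (hTEU : T_TEU) (hUBD : T_UBD) (hUDE : T_UDE) (hZLO : T_ZLO) (hFTB : T_FTB) (hJSH : T_JSH) :
    T_PHB := by
  intro χ hχ m hm ε K hε
  -- constants
  obtain ⟨K1, hK1⟩ := exists_nat_ge (max ((m : ℝ) ^ 2 / 2 + ε) ((m : ℝ) ^ 2))
  set K' : ℕ := max K K1 with hK'
  have hKK : K ≤ K' := le_max_left _ _
  have hK1' : (K1 : ℝ) ≤ K' := by exact_mod_cast le_max_right K K1
  have hKe : (m : ℝ) ^ 2 / 2 + ε ≤ K' := (le_max_left _ _).trans (hK1.trans hK1')
  have hKm : (m : ℝ) ^ 2 ≤ K' := (le_max_right _ _).trans (hK1.trans hK1')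
  obtain ⟨N3, C3, hC3, hub⟩ := hUBD m hm K' hKm
  obtain ⟨C0, hC0, hbi⟩ := hBIA m χ hm hχ
  obtain ⟨Cb, Ab, hCb, hbd⟩ := hBID m χ m hm hχ
  obtain ⟨N1, C1, hC1, hd1⟩ := uu_dual hm hJSH ((K' : ℝ) + (m : ℝ) ^ 2) (by
    have : (0 : ℝ) ≤ K' := by positivity
    linarith)
  obtain ⟨N2, C2, hC2, hd2⟩ := uu_dual hm hJSH ((m : ℝ) ^ 2) le_rfl
  set NN := max N1 N2 with hNN
  obtain ⟨Cx, Ax, hCx, hfx⟩ := hFTY m χ NN hm hχ
  obtain ⟨c0, cz, Az, hc0, hcz, hzl⟩ := hZLO m χ hm hχ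
  set Q : ℝ := ‖((starRingEnd ℂ) ((2 * Real.pi * Complex.I) ^ m)) ^ m‖ with hQ
  have hQ0 : 0 ≤ Q := norm_nonneg _
  have hm1 : (0 : ℝ) < m + 1 := by positivity
  set CA : ℝ := C3 * (Cb * (1 + 2) ^ N3) * C0 ^ K' with hCA
  set CB : ℝ := (C1 + C2) * (Q * (2 * (m : ℝ) ^ 2 + 2) * Cx) with hCB
  have hCA0 : 0 ≤ CA := by
    have : (0 : ℝ) ≤ C0 ^ K' := by positivity
    positivity
  have hCB0 : 0 ≤ CB := by positivity
  refine ⟨CA + CB + 1, min (c0 / (m + 1)) cz, Ab + Ax + Az, by positivity,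
    lt_min (by positivity) hcz, fun δ hδ hδ2 => ?_⟩
  have hδi : (1 : ℝ) ≤ δ⁻¹ := by
    rw [one_le_inv₀ hδ]
    linarith
  have hpw1 : δ⁻¹ ^ Ab ≤ δ⁻¹ ^ (Ab + Ax + Az) := pow_le_pow_right₀ hδi (by omega)
  have hpw2 : δ⁻¹ ^ Ax ≤ δ⁻¹ ^ (Ab + Ax + Az) := pow_le_pow_right₀ hδi (by omega)
  have hTg := (hbi δ hδ hδ2).1
  have hMb : 0 ≤ Cb * δ⁻¹ ^ Ab := by positivity
  have hMx : 0 ≤ Cx * δ⁻¹ ^ Ax := by positivity
  have hTm : TgS m (dD^[m] (bi m χ δ)) := H84.GA.it_tgs hTg m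
  have hpos : ∀ z, bi m χ δ z ≠ 0 → 0 < z.det := fun z hz => H84.GA.bi_pos hχ hδ hδ2 hz
  -- the Fourier transforms of the iterates
  set κ0 : ℂ := (starRingEnd ℂ) ((2 * Real.pi * Complex.I) ^ m) with hκ0
  have hform : ∀ (l : ℕ) (z : Mat m), H34.GA.cf (dD^[l] (bi m χ δ)) z =
      κ0 ^ l * ((z.det : ℝ) : ℂ) ^ l * H34.GA.cf (bi m χ δ) z := by
    intro l
    induction l with
    | zero => intro z; simp
    | succ l ih =>
      intro z
      rw [Function.iterate_succ_apply', (hFDD m hm _ (H84.GA.it_tgs hTg l)).1 z, ih z, pow_succ,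
        pow_succ]
      ring
  refine ⟨hTm, ?_, fun f hf => ⟨?_, ?_⟩, ?_⟩
  · intro w hw
    rw [hform, hw, Complex.ofReal_zero, zero_pow (by omega : m ≠ 0), mul_zero, zero_mul]
  · -- the test function
    have hs0 : ∀ z : Mat m, dD^[m] (bi m χ δ) z ≠ 0 → C0⁻¹ ≤ |z.det| := by
      intro z hz
      have hcl : IsClosed {z : V m | C0⁻¹ ≤ |(mt z).det|} := by
        have hd : Continuous fun z : V m => (mt z).det := by
          have : Continuous fun z : V m => mt z := by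
            refine continuous_matrix fun i j => ?_
            show Continuous fun z : V m => z i j
            fun_prop
          exact this.matrix_det
        exact isClosed_le continuous_const (continuous_abs.comp hd)
      exact H84.GA.it_supp m _ hcl (fun z hz => ((hbi δ hδ hδ2).2 (mt z)).2.2.1 hz |>.2.1)
        (fun i j => z i j) hz
    have hs1 : ∀ z : Mat m, dD^[m] (bi m χ δ) z ≠ 0 → sz z ≤ 2 := by
      intro z hz
      have hcl : IsClosed {z : V m | ‖z‖ ≤ 2} := isClosed_le continuous_norm continuous_const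
      exact H84.GA.it_supp m _ hcl (fun z hz => ((hbi δ hδ hδ2).2 (mt z)).2.2.1 hz |>.1)
        (fun i j => z i j) hz
    have hs2 : ∀ z : Mat m, H34.GA.eu (dD^[m] (bi m χ δ)) z ≠ 0 → sz z ≤ 2 := by
      intro z hz
      by_contra h
      push Not at h
      apply hz
      unfold H34.GA.eu
      have h1 : ContinuousAt (fun c : ℝ => sz (c • z)) 1 := by
        have : Continuous fun c : ℝ => (fun i j => (c • z) i j : V m) := by
          refine continuous_pi fun i => continuous_pi fun j => ?_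
          simp only [Matrix.smul_apply, smul_eq_mul]
          fun_prop
        exact this.norm.continuousAt
      have h2 : ∀ᶠ c in nhds (1 : ℝ), 2 < sz (c • z) := by
        refine continuousAt_const.eventually_lt h1 ?_
        simpa using h
      have h3 : (fun c : ℝ => dD^[m] (bi m χ δ) (c • z)) =ᶠ[nhds 1] fun _ => 0 := by
        filter_upwards [h2] with c hc
        by_contra h4
        exact absurd (hs1 _ h4) (not_le.2 hc)
      rw [h3.deriv_eq]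
      simp
    have hder : ∀ z, HasDerivAt (fun c : ℝ => dD^[m] (bi m χ δ) (c • z))
        (H34.GA.eu (dD^[m] (bi m χ δ)) z) 1 := (hTEU m hm _ hTm).2.2.2.1
    have hTe : TgS m (H34.GA.eu (dD^[m] (bi m χ δ))) := (hTEU m hm _ hTm).1
    have b0 := bd_dec (M := Cb * δ⁻¹ ^ Ab) (R := 2) hMb zero_le_two N3
      (fun z => (hbd δ hδ hδ2 z).1) hs1
    have b1 := bd_dec (M := Cb * δ⁻¹ ^ Ab) (R := 2) hMb zero_le_two N3
      (fun z => (hbd δ hδ hδ2 z).2) hs2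
    have key : ∀ (Φ : Mat m → ℂ), Continuous Φ → (∀ z, ‖Φ z‖ ≤
        Cb * δ⁻¹ ^ Ab * (1 + 2) ^ N3 * (1 + sz z) ^ (-(N3 : ℝ))) →
        (∀ z, Φ z ≠ 0 → C0⁻¹ ≤ |z.det|) → ∀ r : ℝ, 0 < r →
        ‖uu Φ f r‖ ≤ (CA + CB + 1) * δ⁻¹ ^ (Ab + Ax + Az) * r ^ K' ∧
          ‖uu Φ f r‖ ≤ (CA + CB + 1) * δ⁻¹ ^ (Ab + Ax + Az) := by
      intro Φ hc hb hs r hr
      rcases lt_or_ge C0 r with h | h
      · rw [uu_zero hm hC0 hs h, norm_zero]
        constructor <;> positivity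
      · have h1 := (hub f Φ 1 (Cb * δ⁻¹ ^ Ab * (1 + 2) ^ N3) hf zero_le_one (by positivity)
          hc hb r hr).2
        rw [Real.rpow_natCast] at h1
        have h3 : (1 : ℝ) ≤ C0 ^ K' := one_le_pow₀ hC0
        have h4 : (0 : ℝ) < r ^ K' := by positivity
        have h6 : r ^ K' ≤ C0 ^ K' := pow_le_pow_left₀ hr.le h _
        have h8 : C3 * 1 * (Cb * δ⁻¹ ^ Ab * (1 + 2) ^ N3) * C0 ^ K' = CA * δ⁻¹ ^ Ab := by
          rw [hCA]
          ring
        have h9 : CA * δ⁻¹ ^ Ab ≤ (CA + CB + 1) * δ⁻¹ ^ (Ab + Ax + Az) := by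
          refine mul_le_mul (by linarith) hpw1 (by positivity) (by positivity)
        have h10 : 0 ≤ C3 * 1 * (Cb * δ⁻¹ ^ Ab * (1 + 2) ^ N3) := by positivity
        constructor
        · calc ‖uu Φ f r‖ ≤ C3 * 1 * (Cb * δ⁻¹ ^ Ab * (1 + 2) ^ N3) * r ^ K' := h1
            _ ≤ C3 * 1 * (Cb * δ⁻¹ ^ Ab * (1 + 2) ^ N3) * (C0 ^ K' * r ^ K') :=
                mul_le_mul_of_nonneg_left (by nlinarith) h10
            _ = CA * δ⁻¹ ^ Ab * r ^ K' := by rw [← h8]; ring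
            _ ≤ _ := mul_le_mul_of_nonneg_right h9 (by positivity)
        · calc ‖uu Φ f r‖ ≤ C3 * 1 * (Cb * δ⁻¹ ^ Ab * (1 + 2) ^ N3) * r ^ K' := h1
            _ ≤ C3 * 1 * (Cb * δ⁻¹ ^ Ab * (1 + 2) ^ N3) * C0 ^ K' :=
                mul_le_mul_of_nonneg_left h6 h10
            _ = CA * δ⁻¹ ^ Ab := h8
            _ ≤ _ := h9
    exact wtb_of hm hUDE hf (tg_dg hTm.toTg) (tg_dg hTe.toTg) hder hε hKe hKK (by positivity)
      (key _ hTm.cont b0 hs0) (key _ hTe.cont b1 (eu_supp hs0))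
  · -- its Fourier transform
    set g := H34.GA.cf (bi m χ δ) with hg
    set g1 := H34.GA.cf (H34.GA.eu2 (bi m χ δ)) with hg1
    have hdet : ∀ z : Mat m, ‖κ0 ^ m * ((z.det : ℝ) : ℂ) ^ m‖ = Q * |z.det| ^ m := by
      intro z
      rw [hQ, Complex.norm_mul, Complex.norm_pow ((z.det : ℝ) : ℂ), Complex.norm_real,
        Real.norm_eq_abs]
    have hder : ∀ z, HasDerivAt (fun c : ℝ => H34.GA.cf (dD^[m] (bi m χ δ)) (c • z))
        (H34.GA.cf (H34.GA.eu2 (dD^[m] (bi m χ δ))) z) 1 := (hFDD m hm _ hTm).2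
    have heu : ∀ z, H34.GA.cf (H34.GA.eu2 (dD^[m] (bi m χ δ))) z =
        κ0 ^ m * ((z.det : ℝ) : ℂ) ^ m * ((m : ℂ) ^ 2 * g z + g1 z) := by
      intro z
      have h1 : HasDerivAt (fun c : ℝ => g (c • z)) (g1 z) 1 := (hFDD m hm _ hTg).2 z
      have h2 : HasDerivAt (fun c : ℝ => ((c : ℂ)) ^ (m * m)) ((m : ℂ) ^ 2) 1 := by
        have h3 : HasDerivAt (fun c : ℝ => (c : ℂ)) 1 1 := Complex.ofRealCLM.hasDerivAt
        have h4 := h3.pow (m * m)
        have h5 : ((m * m : ℕ) : ℂ) * ((1 : ℝ) : ℂ) ^ (m * m - 1) * 1 = (m : ℂ) ^ 2 := by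
          push_cast
          rw [one_pow]
          ring
        rw [h5] at h4
        exact h4
      have h6 : (fun c : ℝ => H34.GA.cf (dD^[m] (bi m χ δ)) (c • z)) =
          fun c : ℝ => κ0 ^ m * ((z.det : ℝ) : ℂ) ^ m * ((c : ℂ) ^ (m * m) * g (c • z)) := by
        funext c
        rw [hform, Matrix.det_smul, Fintype.card_fin]
        push_cast
        rw [mul_pow, ← pow_mul]
        ring
      have h7 : HasDerivAt (fun c : ℝ => H34.GA.cf (dD^[m] (bi m χ δ)) (c • z))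
          (κ0 ^ m * ((z.det : ℝ) : ℂ) ^ m * ((m : ℂ) ^ 2 * g ((1 : ℝ) • z) +
            ((1 : ℝ) : ℂ) ^ (m * m) * g1 z)) 1 := by
        rw [h6]
        exact (h2.mul h1).const_mul _
      have h8 := (hder z).unique h7
      rw [h8, one_smul, Complex.ofReal_one, one_pow, one_mul]
    have hgb : ∀ z, ‖g z‖ ≤ Cx * δ⁻¹ ^ Ax * (1 + sz z) ^ (-(NN : ℝ)) := fun z =>
      (hfx δ hδ hδ2 z).1
    have hg1b : ∀ z, ‖g1 z‖ ≤ ((m : ℝ) ^ 2 + 1) * (Cx * δ⁻¹ ^ Ax * (1 + sz z) ^ (-(NN : ℝ))) := by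
      intro z
      have h1 := (hfx δ hδ hδ2 z).2
      have h2 := cf_eu2 hTg.toTg (hTEU m hm _ hTg).1.toTg z
      rw [hg1, h2, norm_neg]
      refine (norm_add_le _ _).trans ?_
      rw [norm_mul, norm_pow, Complex.norm_natCast, add_mul, one_mul]
      exact add_le_add (mul_le_mul_of_nonneg_left (hgb z) (by positivity)) h1
    have hNle : ∀ (n : ℕ), n ≤ NN → ∀ z : Mat m,
        (1 + sz z) ^ (-(NN : ℝ)) ≤ (1 + sz z) ^ (-(n : ℝ)) := by
      intro n hn z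
      have h0 : (0 : ℝ) ≤ sz z := norm_nonneg _
      refine Real.rpow_le_rpow_of_exponent_le (by linarith) ?_
      have : (n : ℝ) ≤ NN := by exact_mod_cast hn
      linarith
    have b0 : ∀ z, ‖H34.GA.cf (dD^[m] (bi m χ δ)) z‖ ≤
        (Q * (2 * (m : ℝ) ^ 2 + 2) * Cx * δ⁻¹ ^ Ax) * |z.det| ^ m *
          (1 + sz z) ^ (-(NN : ℝ)) := by
      intro z
      have h0 : (0 : ℝ) ≤ sz z := norm_nonneg _
      rw [hform, norm_mul, hdet]
      have h4 : (0 : ℝ) ≤ (1 + sz z) ^ (-(NN : ℝ)) := by positivity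
      calc Q * |z.det| ^ m * ‖g z‖ ≤ Q * |z.det| ^ m *
            (Cx * δ⁻¹ ^ Ax * (1 + sz z) ^ (-(NN : ℝ))) :=
            mul_le_mul_of_nonneg_left (hgb z) (by positivity)
        _ = (Q * 1 * Cx * δ⁻¹ ^ Ax) * |z.det| ^ m * (1 + sz z) ^ (-(NN : ℝ)) := by ring
        _ ≤ _ := by
            refine mul_le_mul_of_nonneg_right (mul_le_mul_of_nonneg_right ?_ (by positivity)) h4
            refine mul_le_mul_of_nonneg_right (mul_le_mul_of_nonneg_right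
              (mul_le_mul_of_nonneg_left ?_ hQ0) hCx.le) (by positivity)
            have : (0 : ℝ) ≤ (m : ℝ) ^ 2 := by positivity
            linarith
    have b1 : ∀ z, ‖H34.GA.cf (H34.GA.eu2 (dD^[m] (bi m χ δ))) z‖ ≤
        (Q * (2 * (m : ℝ) ^ 2 + 2) * Cx * δ⁻¹ ^ Ax) * |z.det| ^ m *
          (1 + sz z) ^ (-(NN : ℝ)) := by
      intro z
      have h0 : (0 : ℝ) ≤ sz z := norm_nonneg _
      have h4 : (0 : ℝ) ≤ (1 + sz z) ^ (-(NN : ℝ)) := by positivity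
      have h6 : ‖(m : ℂ) ^ 2 * g z + g1 z‖ ≤
          (2 * (m : ℝ) ^ 2 + 1) * (Cx * δ⁻¹ ^ Ax * (1 + sz z) ^ (-(NN : ℝ))) := by
        refine (norm_add_le _ _).trans ?_
        rw [norm_mul, norm_pow, Complex.norm_natCast]
        have h7 : (2 * (m : ℝ) ^ 2 + 1) * (Cx * δ⁻¹ ^ Ax * (1 + sz z) ^ (-(NN : ℝ))) =
          (m : ℝ) ^ 2 * (Cx * δ⁻¹ ^ Ax * (1 + sz z) ^ (-(NN : ℝ))) +
            ((m : ℝ) ^ 2 + 1) * (Cx * δ⁻¹ ^ Ax * (1 + sz z) ^ (-(NN : ℝ))) := by ring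
        rw [h7]
        exact add_le_add (mul_le_mul_of_nonneg_left (hgb z) (by positivity)) (hg1b z)
      rw [heu, norm_mul, hdet]
      calc Q * |z.det| ^ m * ‖(m : ℂ) ^ 2 * g z + g1 z‖ ≤ Q * |z.det| ^ m *
            ((2 * (m : ℝ) ^ 2 + 1) * (Cx * δ⁻¹ ^ Ax * (1 + sz z) ^ (-(NN : ℝ)))) :=
            mul_le_mul_of_nonneg_left h6 (by positivity)
        _ = (Q * (2 * (m : ℝ) ^ 2 + 1) * Cx * δ⁻¹ ^ Ax) * |z.det| ^ m *
              (1 + sz z) ^ (-(NN : ℝ)) := by ring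
        _ ≤ _ := by
            refine mul_le_mul_of_nonneg_right (mul_le_mul_of_nonneg_right ?_ (by positivity)) h4
            refine mul_le_mul_of_nonneg_right (mul_le_mul_of_nonneg_right
              (mul_le_mul_of_nonneg_left ?_ hQ0) hCx.le) (by positivity)
            linarith
    have key : ∀ (Ψ : Mat m → ℂ), (∀ z, ‖Ψ z‖ ≤
        (Q * (2 * (m : ℝ) ^ 2 + 2) * Cx * δ⁻¹ ^ Ax) * |z.det| ^ m *
          (1 + sz z) ^ (-(NN : ℝ))) → ∀ r : ℝ, 0 < r →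
        ‖uu Ψ f r‖ ≤ (CA + CB + 1) * δ⁻¹ ^ (Ab + Ax + Az) * r ^ K' ∧
          ‖uu Ψ f r‖ ≤ (CA + CB + 1) * δ⁻¹ ^ (Ab + Ax + Az) := by
      intro Ψ hb r hr
      have hMM : 0 ≤ Q * (2 * (m : ℝ) ^ 2 + 2) * Cx * δ⁻¹ ^ Ax := by positivity
      have h1 := hd1 f hf Ψ _ hMM (fun z => (hb z).trans
        (mul_le_mul_of_nonneg_left (hNle N1 (le_max_left _ _) z) (by positivity))) r hr
      have h2 := hd2 f hf Ψ _ hMM (fun z => (hb z).trans
        (mul_le_mul_of_nonneg_left (hNle N2 (le_max_right _ _) z) (by positivity))) r hr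
      rw [add_sub_cancel_right, Real.rpow_natCast] at h1
      rw [sub_self, Real.rpow_zero, mul_one] at h2
      have h3 : C1 * (Q * (2 * (m : ℝ) ^ 2 + 2) * Cx * δ⁻¹ ^ Ax) ≤
          (CA + CB + 1) * δ⁻¹ ^ (Ab + Ax + Az) := by
        calc C1 * (Q * (2 * (m : ℝ) ^ 2 + 2) * Cx * δ⁻¹ ^ Ax) =
              (C1 * (Q * (2 * (m : ℝ) ^ 2 + 2) * Cx)) * δ⁻¹ ^ Ax := by ring
          _ ≤ _ := by
              refine mul_le_mul ?_ hpw2 (by positivity) (by positivity)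
              rw [hCB]
              have : 0 ≤ C2 * (Q * (2 * (m : ℝ) ^ 2 + 2) * Cx) := by positivity
              nlinarith
      have h4 : C2 * (Q * (2 * (m : ℝ) ^ 2 + 2) * Cx * δ⁻¹ ^ Ax) ≤
          (CA + CB + 1) * δ⁻¹ ^ (Ab + Ax + Az) := by
        calc C2 * (Q * (2 * (m : ℝ) ^ 2 + 2) * Cx * δ⁻¹ ^ Ax) =
              (C2 * (Q * (2 * (m : ℝ) ^ 2 + 2) * Cx)) * δ⁻¹ ^ Ax := by ring
          _ ≤ _ := by
              refine mul_le_mul ?_ hpw2 (by positivity) (by positivity)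
              rw [hCB]
              have : 0 ≤ C1 * (Q * (2 * (m : ℝ) ^ 2 + 2) * Cx) := by positivity
              nlinarith
      exact ⟨h1.trans (mul_le_mul_of_nonneg_right h3 (by positivity)), h2.trans h4⟩
    exact wtb_of hm hUDE hf (hFTB m hm _ hTm).1 (hFTB m hm _ (hTEU m hm _ hTm).2.1).1
      hder hε hKe hKK (by positivity) (key _ b0) (key _ b1)
  · -- the zeta integral
    intro f mu hf hmu hnear s hs
    rw [(hZAD m hm mu f 1 hf hmu (bi m χ δ) hTg hpos s).2]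
    have h2 : δ * (1 + ‖s - m‖) ≤ c0 := by
      have h3 : ‖s - m‖ ≤ ‖s‖ + m := by
        have := norm_sub_le s (m : ℂ)
        simpa using this
      have h4 : δ * (1 + ‖s - m‖) ≤ (m + 1) * (δ * (1 + ‖s‖)) := by
        have h5 : 1 + ‖s - m‖ ≤ (m + 1) * (1 + ‖s‖) := by
          have := norm_nonneg s
          have hm0 : (0 : ℝ) ≤ m := by positivity
          nlinarith
        calc δ * (1 + ‖s - m‖) ≤ δ * ((m + 1) * (1 + ‖s‖)) := by
              exact mul_le_mul_of_nonneg_left h5 hδ.le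
          _ = _ := by ring
      refine h4.trans ?_
      have h6 := hs.trans (min_le_left _ _)
      rw [le_div_iff₀ hm1] at h6
      linarith
    have hnear' : ∀ z : Mat m, sz (z - 1) ≤ δ → ‖f z - ((1 : ℝ) : ℂ)‖ ≤ 1 / 4 := by
      intro z hz
      rw [Complex.ofReal_one]
      exact hnear z hz
    have h6 := hzl f 1 1 hf one_pos (s - m) δ hδ hδ2 h2 hnear'
    have hP : 0 ≤ ∏ i : Fin m, ∏ j, ‖s - ((i : ℕ) + 1) - mu j‖ :=
      Finset.prod_nonneg fun _ _ => Finset.prod_nonneg fun _ _ => norm_nonneg _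
    have h7 : min (c0 / (m + 1)) cz * δ ^ (Ab + Ax + Az) ≤ cz * 1 * δ ^ Az := by
      rw [mul_one]
      refine mul_le_mul (min_le_right _ _) ?_ (by positivity) hcz.le
      exact pow_le_pow_of_le_one hδ.le (by linarith) (by omega)
    calc min (c0 / (m + 1)) cz * δ ^ (Ab + Ax + Az) *
          ∏ i : Fin m, ∏ j, ‖s - ((i : ℕ) + 1) - mu j‖
        ≤ (cz * 1 * δ ^ Az) * ∏ i : Fin m, ∏ j, ‖s - ((i : ℕ) + 1) - mu j‖ :=
          mul_le_mul_of_nonneg_right h7 hP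
      _ = (∏ i : Fin m, ∏ j, ‖s - ((i : ℕ) + 1) - mu j‖) * (cz * 1 * δ ^ Az) := by ring
      _ ≤ _ := mul_le_mul_of_nonneg_left h6 hP

end Pool.Agent.H27.L1.H23.GA
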