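import Pool.Agent.H27.L1.H23.GU.SGVF
import Pool.Agent.H27.L1.H34.GA.Targets1

/-!
Row SGA of the board ga: the singular part vanishes on decaying cusp forms.
-/

namespace Pool.Agent.H27.L1.H23.GA

open MeasureTheory Pool.Agent.H27.L1.H34.GM Pool.Agent.H27.L1.H34.GZ Pool.Agent.H27.L1.H34.GU Pool.Agent.H27.L1.H34.GA
open Pool.Agent.H27.L1.H23.GU

/-- in level one the integral of a cusp form over the fundamental domain vanishes -/
def T_INZ : Prop := ∀ (m N : ℕ) [NeZero N] (T : ℕ → Finset (ZM m)) (D : Set (V m)),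
  SysZ m N T D → N = 1 → ∀ (F : Mat m → VN m N → ℂ) (lam : ℕ → ℂ), CusB m N T F lam → Dcy F →
  ∀ x : VN m N, IntegrableOn (fun z => F (mt z) x) D (hm m) ∧
    ∫ z in D, F (mt z) x ∂(hm m) = 0

lemma pr_of_one {m N : ℕ} (h : 2 ≤ N) : ¬ Pr (0 : VN m N) := by
  rintro ⟨u, hu⟩
  have h3 : dt u (0 : VN m N) = 0 := by simp [dt]
  rw [h3] at hu
  have : Fact (1 < N) := ⟨by omega⟩
  exact zero_ne_one hu

lemma ac_zero {m N : ℕ} [NeZero N] (x : VN m N) : ac N (0 : ZM m) x = 0 := by
  show (cQ N 0).mulVec x = 0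
  have : cQ N (0 : ZM m) = 0 := by
    ext i j
    simp [cQ]
  rw [this, Matrix.zero_mulVec]

theorem sga_of (hS : T_SNU) (hAC : T_ACA) (hI : T_INZ) : T_SGA := by
  classical
  intro m N _ T D hsys F lam hF hdc0 Ψ hΨ g r x hg hr
  have hm1 := hsys.one_le
  have hD := hsys.dom
  have hab := hAC m N T D hsys F lam hF.toHecA Ψ hΨ (Or.inl hdc0) g r x hg hr
  have hI0 : Integrable (fun z => Ψ (kk r (mt z) (cR (0 : ZM m)) g) * F (mt z) (ac N 0 x))
      ((hm m).restrict D) ∧
      ∫ z in D, Ψ (kk r (mt z) (cR (0 : ZM m)) g) * F (mt z) (ac N 0 x) ∂(hm m) = 0 := by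
    by_cases hN : N = 1
    · obtain ⟨h1, h2⟩ := hI m N T D hsys hN F lam hF hdc0 (ac N 0 x)
      have h3 : ∀ z : V m, Ψ (kk r (mt z) (cR (0 : ZM m)) g) = Ψ 0 := by
        intro z
        congr 1
        have h4 : cR (0 : ZM m) = 0 := by
          ext i j
          simp [cR]
        unfold kk
        rw [h4, mul_zero, zero_mul, smul_zero]
      simp only [h3]
      exact ⟨h1.const_mul _, by rw [integral_const_mul, h2, mul_zero]⟩
    · have hN2 : 2 ≤ N := by
        have := NeZero.ne N
        omega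
      have h1 : ∀ z : V m, Ψ (kk r (mt z) (cR (0 : ZM m)) g) * F (mt z) (ac N 0 x) = 0 := by
        intro z
        rw [ac_zero, hF.supp _ _ (pr_of_one hN2), mul_zero]
      simp only [h1]
      exact ⟨integrable_zero _ _ _, integral_zero _ _⟩
  set G : ZM m → V m → ℂ := fun α z => if (mt z).det = 0 ∨ α.det ≠ 0 ∨ α = 0 then 0 else
    Ψ (kk r (mt z) (cR α) g) * F (mt z) (ac N α x) with hG
  have hdc : Continuous fun z : V m => mt z := by
    refine continuous_matrix fun i j => ?_
    show Continuous fun z : V m => z i j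
    fun_prop
  have hopen : MeasurableSet {z : V m | (mt z).det ≠ 0} :=
    (isOpen_ne_fun det_cont continuous_const).measurableSet
  have hmeas : ∀ α, Measurable (G α) := by
    intro α
    by_cases hα : α.det ≠ 0 ∨ α = 0
    · have : G α = fun _ => 0 := by
        funext z
        simp only [hG]
        rw [if_pos (Or.inr hα)]
      rw [this]
      exact measurable_const
    · have h1 : G α = fun z => Ψ (kk r (mt z) (cR α) g) *
          ({z : V m | (mt z).det ≠ 0}).piecewise (fun z => F (mt z) (ac N α x)) (fun _ => 0) z := by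
        funext z
        simp only [hG]
        by_cases hz : (mt z).det = 0
        · rw [if_pos (Or.inl hz), Set.piecewise_eq_of_notMem _ _ _ (by simpa using hz), mul_zero]
        · rw [if_neg (fun h => h.elim hz hα),
            Set.piecewise_eq_of_mem _ _ _ (show z ∈ {z : V m | (mt z).det ≠ 0} from hz)]
      rw [h1]
      refine Measurable.mul ?_ ?_
      · have h2 : Measurable fun v : V m => Ψ (mt v) := (hΨ.cont.comp hdc).measurable
        exact h2.comp (kk_meas r (cR α) g)
      · refine ContinuousOn.measurable_piecewise ?_ continuousOn_const hopen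
        exact (hF.cont (ac N α x)).comp hdc.continuousOn (fun z hz => hz)
  have hinv : ∀ (c α : ZM m) (z : V m), IsUnit c → (mt z).det ≠ 0 →
      G (c * α) (fun i j => (cR c * mt z) i j) = G α z := by
    intro c α z hc hz
    show (if (mt (lm (cR c) z)).det = 0 ∨ (c * α).det ≠ 0 ∨ c * α = 0 then 0 else
      Ψ (kk r (mt (lm (cR c) z)) (cR (c * α)) g) * F (mt (lm (cR c) z)) (ac N (c * α) x)) =
      if (mt z).det = 0 ∨ α.det ≠ 0 ∨ α = 0 then 0 else
      Ψ (kk r (mt z) (cR α) g) * F (mt z) (ac N α x)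
    have h1 : (mt (lm (cR c) z)).det ≠ 0 := det_lmU hc hz
    have h2 : (c * α).det = 0 ↔ α.det = 0 := by
      rw [Matrix.det_mul]
      have h3 : c.det ≠ 0 := ((Matrix.isUnit_iff_isUnit_det c).1 hc).ne_zero
      constructor
      · intro h
        exact (mul_eq_zero.1 h).resolve_left h3
      · intro h
        rw [h, mul_zero]
    have h20 : c * α = 0 ↔ α = 0 := hc.mul_right_eq_zero
    by_cases hα : α.det ≠ 0 ∨ α = 0
    · rw [if_pos (Or.inr (hα.imp (fun h h' => h (h2.1 h')) h20.2)), if_pos (Or.inr hα)]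
    · have hα' : ¬ ((c * α).det ≠ 0 ∨ c * α = 0) := fun h =>
        hα (h.imp (fun h3 h4 => h3 (h2.2 h4)) h20.1)
      rw [if_neg (fun h => h.elim h1 hα'), if_neg (fun h => h.elim hz hα), mt_lm, kk_unit hc]
      congr 1
      have h4 : ac N (c * α) x = ac N c (ac N α x) := by
        show (cQ N (c * α)).mulVec x = (cQ N c).mulVec ((cQ N α).mulVec x)
        rw [Matrix.mulVec_mulVec]
        congr 1
        unfold cQ
        exact Matrix.map_mul (f := Int.castRingHom (ZMod N))
      rw [h4]
      exact hF.auto c hc (mt z) (ac N α x) hz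
  have h0 : ∀ z, G 0 z = 0 := fun z => if_pos (Or.inr (Or.inr rfl))
  have hfin : ∫⁻ z in D, ∑' α : ZM m, ENNReal.ofReal ‖G α z‖ ∂(hm m) < ⊤ := by
    refine lt_of_le_of_lt (lintegral_mono fun z => ENNReal.tsum_le_tsum fun α => ?_) hab
    simp only [hG]
    split_ifs
    · simp
    · exact le_rfl
  have hkey := hS m N D hm1 hsys.two_le hD G hmeas hinv
    (fun α z hα => by simp only [hG]; rw [if_pos (Or.inr (Or.inl hα))]) h0 hfin ?_
  · have hsum : ∀ᵐ z ∂((hm m).restrict D), Summable fun α => G α z := by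
      have : Countable (ZM m) := inferInstanceAs (Countable (Fin m → Fin m → ℤ))
      have h1 := ae_lt_top (Measurable.ennreal_tsum fun α => (hmeas α).norm.ennreal_ofReal)
        hfin.ne
      filter_upwards [h1] with z hz
      exact Summable.of_norm ((ENNReal.summable_toReal hz.ne).congr fun α =>
        ENNReal.toReal_ofReal (norm_nonneg _))
    have hsplit : ∀ᵐ z ∂((hm m).restrict D), (∑' α : ZM m, (if α.det = 0 then
        Ψ (kk r (mt z) (cR α) g) * F (mt z) (ac N α x) else 0)) =
        Ψ (kk r (mt z) (cR (0 : ZM m)) g) * F (mt z) (ac N 0 x) + ∑' α : ZM m, G α z := by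
      filter_upwards [hsum, ae_restrict_mem hD.meas] with z hz hzD
      have hz' : (mt z).det ≠ 0 := shell_det hm1 (hD.shell z hzD)
      have h1 : (fun α : ZM m => (if α.det = 0 then
          Ψ (kk r (mt z) (cR α) g) * F (mt z) (ac N α x) else 0)) =
          fun α => (Pi.single (0 : ZM m)
            (Ψ (kk r (mt z) (cR (0 : ZM m)) g) * F (mt z) (ac N 0 x)) : ZM m → ℂ) α + G α z := by
        funext α
        simp only [hG]
        by_cases hα0 : α = 0
        · subst hα0
          have hd0 : (0 : ZM m).det = 0 := by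
            have : Nonempty (Fin m) := ⟨⟨0, hm1⟩⟩
            exact Matrix.det_zero
          rw [if_pos hd0, Pi.single_eq_same, if_pos (Or.inr (Or.inr rfl)), add_zero]
        · rw [Pi.single_eq_of_ne hα0, zero_add]
          by_cases hα : α.det = 0
          · rw [if_pos hα, if_neg (fun h => h.elim hz' (fun h => h.elim (fun h => h hα) hα0))]
          · rw [if_neg hα, if_pos (Or.inr (Or.inl hα))]
      rw [h1, Summable.tsum_add (hasSum_pi_single 0 _).summable hz, tsum_pi_single]
    rw [integral_congr_ae hsplit]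
    by_cases hg2 : Integrable (fun z => ∑' α : ZM m, G α z) ((hm m).restrict D)
    · rw [integral_add hI0.1 hg2, hI0.2, hkey, add_zero]
    · refine integral_undef fun h => hg2 ?_
      refine (h.sub hI0.1).congr (Filter.Eventually.of_forall fun z => ?_)
      simp only [Pi.sub_apply]
      ring
  · intro k hk0 hkm β hβ z hz
    by_cases hd : β.det ≠ 0 ∨ β = 0
    · have h1 : ∀ u : V m, G β (fun i j => ((1 + (N : ℝ) • nk k u) * mt z) i j) = 0 := by
        intro u
        simp only [hG]
        rw [if_pos (Or.inr hd)]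
      simp only [h1, integral_zero]
    · have h1 : ∀ u : V m, G β (fun i j => ((1 + (N : ℝ) • nk k u) * mt z) i j) =
          Ψ (kk r (mt z) (cR β) g) * F ((1 + (N : ℝ) • nk k u) * mt z) (ac N β x) := by
        intro u
        show (if (mt (lm (1 + (N : ℝ) • nk k u) z)).det = 0 ∨ β.det ≠ 0 ∨ β = 0 then 0 else
          Ψ (kk r (mt (lm (1 + (N : ℝ) • nk k u) z)) (cR β) g) *
            F (mt (lm (1 + (N : ℝ) • nk k u) z)) (ac N β x)) = _
        rw [if_neg, mt_lm]
        · congr 1
          rw [Pu1_smul, kk_Pu1 hβ]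
        · rw [Pu1_smul]
          exact fun h => h.elim (det_lmP k _ hz) hd
      simp only [h1]
      rw [integral_const_mul, hF.cusp k hk0 hkm (mt z) (ac N β x) hz, mul_zero]

theorem pf_SGA : T_ACA → T_INZ → T_SGA :=
  sga_of (pf_SNU Pool.Agent.H27.L1.H75.GU.pf_SNA pf_SNW
    (Pool.Agent.H27.L1.H85.GZ.pf_UNZ Pool.Agent.H27.L1.H44.GMF.pf_HAR) Pool.Agent.H27.L1.H44.GMF.pf_HAR)

end Pool.Agent.H27.L1.H23.GA
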